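import Mathlib

set_option autoImplicit false

namespace TH178.Feynman

open Finset

/-- the two real amplitudes (right-moving, left-moving), unnormalised, at time `n+1`. -/
noncomputable def AB : ℕ → ℤ → ℝ × ℝ
  | 0, y => (if y = 1 then 1 else 0, 0)
  | (n+1), y => ((AB n (y-1)).1 - (AB n (y-1)).2, (AB n (y+1)).1 + (AB n (y+1)).2)

noncomputable def A (n : ℕ) (y : ℤ) : ℝ := (AB n y).1
noncomputable def B (n : ℕ) (y : ℤ) : ℝ := (AB n y).2

lemma A_zero (y : ℤ) : A 0 y = if y = 1 then 1 else 0 := rfl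
lemma B_zero (y : ℤ) : B 0 y = 0 := rfl
lemma A_succ (n : ℕ) (y : ℤ) : A (n+1) y = A n (y-1) - B n (y-1) := rfl
lemma B_succ (n : ℕ) (y : ℤ) : B (n+1) y = A n (y+1) + B n (y+1) := rfl

/-- horizontal relations -/
lemma horiz (n : ℕ) : ∀ y : ℤ,
    ((n:ℝ) + y - 1) * (B n (y-2) - B n y) = 2 * ((y:ℝ) - 1) * A n y ∧
    ((n:ℝ) - y + 3) * A n (y-2) = (5 - (n:ℝ) - 3 * y) * B n (y-2) + ((n:ℝ) + y - 1) * (A n y + B n y) := by
  induction n with
  | zero =>
    intro y
    constructor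
    · rw [B_zero, B_zero, A_zero]
      split_ifs with h
      · subst h; push_cast; ring
      · ring
    · rw [B_zero, B_zero, A_zero, A_zero]
      split_ifs with h1 h2 h2
      · omega
      · have : y = 3 := by omega
        subst this; push_cast; ring
      · subst h2; push_cast; ring
      · push_cast; ring
  | succ n ih =>
    intro y
    obtain ⟨h1, h2⟩ := ih (y+1)
    obtain ⟨h3, h4⟩ := ih (y-1)
    rw [show y + 1 - 2 = y - 1 by ring] at h1 h2
    rw [show y - 1 - 2 = y - 2 - 1 by ring] at h3 h4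
    rw [A_succ, B_succ, B_succ, A_succ, show y - 2 + 1 = y - 1 by ring]
    push_cast at h1 h2 h3 h4 ⊢
    constructor
    · linear_combination h2
    · linear_combination h4 - 2 * h3 + h2

lemma A_top (n : ℕ) : A n ((n:ℤ)+1) = 1 ∧ B n ((n:ℤ)+1) = 0 ∧ ∀ y : ℤ, (n:ℤ) + 1 < y → A n y = 0 ∧ B n y = 0 := by
  induction n with
  | zero =>
    refine ⟨by simp [A_zero], by simp [B_zero], fun y hy => ?_⟩
    rw [A_zero, B_zero, if_neg (by push_cast at hy; omega)]
    simp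
  | succ n ih =>
    obtain ⟨h1, h2, h3⟩ := ih
    refine ⟨?_, ?_, fun y hy => ?_⟩
    · rw [A_succ]
      push_cast
      rw [show (n:ℤ) + 1 + 1 - 1 = n + 1 by ring, h1, h2]; ring
    · rw [B_succ]
      push_cast
      obtain ⟨h4, h5⟩ := h3 ((n:ℤ)+1+1+1) (by linarith)
      rw [h4, h5]; ring
    · push_cast at hy
      rw [A_succ, B_succ]
      obtain ⟨h4, h5⟩ := h3 (y-1) (by linarith)
      obtain ⟨h6, h7⟩ := h3 (y+1) (by linarith)
      rw [h4, h5, h6, h7]; simp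

/-- vanishing for wrong parity or out of range -/
lemma AB_par (n : ℕ) : ∀ y : ℤ, (¬ (2:ℤ) ∣ (y - n - 1)) → A n y = 0 ∧ B n y = 0 := by
  induction n with
  | zero =>
    intro y hy
    rw [A_zero, B_zero, if_neg (by rintro rfl; exact hy (by simp))]
    simp
  | succ n ih =>
    intro y hy
    rw [A_succ, B_succ]
    obtain ⟨h4, h5⟩ := ih (y-1) (by push_cast at hy; omega)
    obtain ⟨h6, h7⟩ := ih (y+1) (by push_cast at hy; omega)
    rw [h4, h5, h6, h7]; simp

lemma AB_low (n : ℕ) : ∀ y : ℤ, y < -(n:ℤ) → A n y = 0 ∧ B n y = 0 := by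
  induction n with
  | zero =>
    intro y hy
    rw [A_zero, B_zero, if_neg (by push_cast at hy; omega)]
    simp
  | succ n ih =>
    intro y hy
    push_cast at hy
    rw [A_succ, B_succ]
    obtain ⟨h4, h5⟩ := ih (y-1) (by omega)
    obtain ⟨h6, h7⟩ := ih (y+1) (by omega)
    rw [h4, h5, h6, h7]; simp

/-- signed amplitudes on the antidiagonal -/
noncomputable def al (n q : ℕ) : ℝ := (-1)^q * A n ((n:ℤ) + 1 - 2 * q)
noncomputable def be (n q : ℕ) : ℝ := (-1)^(q+1) * B n ((n:ℤ) + 1 - 2 * q)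

lemma al_zero (n : ℕ) : al n 0 = 1 := by
  unfold al; simp [(A_top n).1]
lemma be_zero (n : ℕ) : be n 0 = 0 := by
  unfold be; simp [(A_top n).2.1]

lemma rec1 (n q : ℕ) : ((n:ℝ) - q) * (be n (q+1) + be n q) = ((n:ℝ) - 2 * q) * al n q := by
  have h := (horiz n ((n:ℤ) + 1 - 2 * q)).1
  unfold be al
  rw [show ((n:ℤ) + 1 - 2 * ((q+1 : ℕ):ℤ)) = (n:ℤ) + 1 - 2 * q - 2 by push_cast; ring]
  push_cast at h
  rw [pow_succ, pow_succ]
  linear_combination (1/2) * (-1)^q * h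

lemma rec2 (n q : ℕ) : ((q:ℝ) + 1) * al n (q+1) =
    (2 * (n:ℝ) - 3 * q - 1) * be n (q+1) - ((n:ℝ) - q) * (al n q - be n q) := by
  have h := (horiz n ((n:ℤ) + 1 - 2 * q)).2
  unfold be al
  rw [show ((n:ℤ) + 1 - 2 * ((q+1 : ℕ):ℤ)) = (n:ℤ) + 1 - 2 * q - 2 by push_cast; ring]
  push_cast at h
  rw [pow_succ, pow_succ]
  linear_combination -(1/2) * (-1)^q * h

end TH178.Feynman
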