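import Mathlib
import Pool.Agent.TH178.FeynA

set_option autoImplicit false

namespace TH178.Feynman

open Finset

/-- number of turns -/
def turns {n : ℕ} (s : Fin (n+1) → Bool) : ℕ :=
  (Finset.univ.filter (fun i : Fin n => s i.castSucc ≠ s i.succ)).card

lemma turns_snoc {n : ℕ} (s : Fin (n+1) → Bool) (e : Bool) :
    turns (Fin.snoc s e : Fin (n+2) → Bool) = turns s + if s (Fin.last n) ≠ e then 1 else 0 := by
  unfold turns
  rw [Finset.card_filter, Finset.card_filter, Fin.sum_univ_castSucc]
  congr 1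
  · apply Finset.sum_congr rfl
    intro i _
    rw [Fin.succ_castSucc, Fin.snoc_castSucc, Fin.snoc_castSucc]
  · rw [Fin.snoc_castSucc, Fin.succ_last, Fin.snoc_last]

/-- total displacement -/
def disp {n : ℕ} (s : Fin (n+1) → Bool) : ℤ := ∑ i, (if s i then (1:ℤ) else -1)

lemma disp_snoc {n : ℕ} (s : Fin (n+1) → Bool) (e : Bool) :
    disp (Fin.snoc s e : Fin (n+2) → Bool) = disp s + if e then (1:ℤ) else -1 := by
  unfold disp
  rw [Fin.sum_univ_castSucc]
  congr 1
  · apply Finset.sum_congr rfl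
    intro i _
    rw [Fin.snoc_castSucc]
  · rw [Fin.snoc_last]

/-- path sum with prescribed last step -/
noncomputable def W (n : ℕ) (y : ℤ) (e : Bool) : ℂ :=
  ∑ s : Fin (n+1) → Bool, if s 0 = true ∧ disp s = y ∧ s (Fin.last n) = e then (-Complex.I)^(turns s) else 0

lemma sum_snoc {n : ℕ} (F : (Fin (n+2) → Bool) → ℂ) :
    ∑ s : Fin (n+2) → Bool, F s = ∑ e : Bool, ∑ s : Fin (n+1) → Bool, F (Fin.snoc s e) := by
  rw [← Fintype.sum_prod_type']
  exact ((Fin.snocEquiv (fun _ : Fin (n+2) => Bool)).sum_comp F).symm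

lemma W_succ (n : ℕ) (y : ℤ) (e : Bool) :
    W (n+1) y e = W n (y - if e then (1:ℤ) else -1) e
      + (-Complex.I) * W n (y - if e then (1:ℤ) else -1) (!e) := by
  unfold W
  rw [sum_snoc, Finset.mul_sum, ← Finset.sum_add_distrib]
  rw [Finset.sum_comm]
  apply Finset.sum_congr rfl
  intro s _
  rw [Fintype.sum_bool]
  have h0 : ∀ e' : Bool, (Fin.snoc s e' : Fin (n+2) → Bool) 0 = s 0 := by
    intro e'
    rw [show (0 : Fin (n+2)) = Fin.castSucc (0 : Fin (n+1)) by rfl, Fin.snoc_castSucc]
  simp only [h0, disp_snoc, turns_snoc, Fin.snoc_last]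
  cases e <;> cases hs : s (Fin.last n) <;> cases hs0 : s 0 <;> simp
  all_goals
    simp only [eq_sub_iff_add_eq, sub_eq_add_neg, eq_add_neg_iff_add_eq, add_neg_eq_iff_eq_add]
  all_goals
    split_ifs <;> simp_all [pow_succ, mul_comm]

lemma W_zero (y : ℤ) : W 0 y true = (A 0 y : ℂ) ∧ W 0 y false = -Complex.I * (B 0 y : ℂ) := by
  have key : ∀ e : Bool, W 0 y e = ∑ b : Bool, if b = true ∧ (if b then (1:ℤ) else -1) = y ∧ b = e then 1 else 0 := by
    intro e
    unfold W
    rw [← (Equiv.funUnique (Fin 1) Bool).symm.sum_comp]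
    apply Finset.sum_congr rfl
    intro b _
    simp [disp, turns]
  rw [key, key, A_zero, B_zero, Fintype.sum_bool, Fintype.sum_bool]
  constructor
  · by_cases h : y = 1
    · subst h; simp
    · have h' : ¬ (1:ℤ) = y := fun h' => h h'.symm
      simp [h, h']
  · simp

lemma W_eq (n : ℕ) : ∀ y : ℤ, W n y true = (A n y : ℂ) ∧ W n y false = -Complex.I * (B n y : ℂ) := by
  induction n with
  | zero => exact W_zero
  | succ n ih =>
    intro y
    obtain ⟨h1, h2⟩ := ih (y-1)
    obtain ⟨h3, h4⟩ := ih (y+1)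
    constructor
    · rw [W_succ, A_succ]
      simp only [if_true, Bool.not_true]
      rw [h1, h2]
      push_cast
      linear_combination (B n (y-1) : ℂ) * Complex.I_sq
    · rw [W_succ, B_succ]
      simp only [Bool.not_false, Bool.false_eq_true, if_false, sub_neg_eq_add]
      rw [h3, h4]
      push_cast
      ring

/-- the squared norm of the path sum -/
lemma norm_sq_eq (n : ℕ) (y : ℤ) :
    ‖∑ s ∈ Finset.univ.filter
              (fun s : Fin (n+1) → Bool =>
                s 0 = true ∧ ∑ i, (if s i then (1:ℤ) else -1) = y),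
            (-Complex.I) ^ ((Finset.univ.filter
              (fun i : Fin n => s i.castSucc ≠ s i.succ)).card)‖ ^ 2 = (A n y)^2 + (B n y)^2 := by
  have h : (∑ s ∈ Finset.univ.filter
              (fun s : Fin (n+1) → Bool =>
                s 0 = true ∧ ∑ i, (if s i then (1:ℤ) else -1) = y),
            (-Complex.I) ^ ((Finset.univ.filter
              (fun i : Fin n => s i.castSucc ≠ s i.succ)).card)) = W n y true + W n y false := by
    unfold W
    rw [← Finset.sum_add_distrib, Finset.sum_filter]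
    apply Finset.sum_congr rfl
    intro s _
    unfold disp turns
    cases hs : s (Fin.last n) <;> simp
  rw [h, (W_eq n y).1, (W_eq n y).2]
  have h2 : ((A n y : ℂ) + -Complex.I * (B n y : ℂ)) = ((A n y : ℝ) : ℂ) + ((-(B n y) : ℝ) : ℂ) * Complex.I := by
    push_cast; ring
  rw [h2, ← Complex.normSq_eq_norm_sq, Complex.normSq_add_mul_I]
  ring

end TH178.Feynman
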