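import Mathlib
import Pool.Agent.TH178.FeynB

set_option autoImplicit false

namespace TH178.Feynman

/-- one step of the discrete Riccati comparison -/
lemma step {m k a b a' b' s s' : ℝ} (hk : 0 < k) (hkm : k < m) (ha : 0 < a) (hb0 : 0 ≤ b)
    (hb : b ≤ s * a) (hs'k : k ≤ s' * (m - k)) (hms : m * s ≤ m - k + 1) (hs' : 0 ≤ s')
    (hG : m * k ≤ m^2 - 3*m*k + k^2 + 2*m - k - m*(m-k)*s)
    (hQ : k*(m-k+1) - k*m*s ≤ s' * (m^2 - 3*m*k + k^2 + 2*m - k - m*(m-k)*s))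
    (h1 : m * (b' + b) = (m-k+1)*a)
    (h2 : k * a' = (2*m-k)*b' - m*(a-b)) :
    a ≤ a' ∧ 0 ≤ b' ∧ b' ≤ s' * a' := by
  have hm : 0 < m := by linarith
  have e1 : m*k*a' = (m^2 - 3*m*k + k^2 + 2*m - k)*a - m*(m-k)*b := by
    linear_combination m * h2 + (2*m-k)*h1
  have e2 : m*k*b' = k*(m-k+1)*a - k*m*b := by
    linear_combination k * h1
  have hmk : 0 < m*k := mul_pos hm hk
  have hmmk : 0 < m*(m-k) := mul_pos hm (by linarith)
  have f1 : m*(m-k)*b ≤ m*(m-k)*(s*a) := mul_le_mul_of_nonneg_left hb hmmk.le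
  have f2 : m*k*a ≤ (m^2 - 3*m*k + k^2 + 2*m - k - m*(m-k)*s)*a := mul_le_mul_of_nonneg_right hG ha.le
  refine ⟨?_, ?_, ?_⟩
  · have : m*k*a ≤ m*k*a' := by
      rw [e1]; linarith
    exact le_of_mul_le_mul_left this hmk
  · have : m * 0 ≤ m * b' := by
      have g1 : m*s*a ≤ (m-k+1)*a := mul_le_mul_of_nonneg_right hms ha.le
      have g2 : m*b ≤ m*(s*a) := mul_le_mul_of_nonneg_left hb hm.le
      nlinarith
    exact le_of_mul_le_mul_left this hm
  · have g3 : (k*(m-k+1) - k*m*s)*a ≤ (s' * (m^2 - 3*m*k + k^2 + 2*m - k - m*(m-k)*s))*a :=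
      mul_le_mul_of_nonneg_right hQ ha.le
    have g4 : 0 ≤ m*(s'*(m-k) - k) := mul_nonneg hm.le (by linarith)
    have g5 : (m*(s'*(m-k) - k))*b ≤ (m*(s'*(m-k) - k))*(s*a) := mul_le_mul_of_nonneg_left hb g4
    have : m*k*b' ≤ m*k*(s'*a') := by
      have e3 : m*k*(s'*a') = s'*((m^2 - 3*m*k + k^2 + 2*m - k)*a - m*(m-k)*b) := by
        rw [← e1]; ring
      rw [e2, e3]
      nlinarith
    exact le_of_mul_le_mul_left this hmk

/-- parameters -/
structure Par (M D ρ : ℝ) : Prop where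
  hD : 1 ≤ D
  hM : 100 * (D + 1) ≤ M
  hρ : ρ^2 = 1 - 2*ρ
  hρ1 : 0.41 < ρ
  hρ2 : ρ < 0.415

set_option maxHeartbeats 4000000 in
lemma cond {M D ρ m k s s' : ℝ} (P : Par M D ρ) (hk : 0 < k) (hmn : m + k = M^3 + 1) (hmM : m ≤ M^3)
    (hd : k - (1-2*ρ)*m ≤ D) (hs1 : ρ - 1/(4*M) ≤ s) (hs2 : s ≤ ρ - 1/(8*M)) (hss' : s ≤ s')
    (hph : k - (1-2*ρ)*m ≤ -(M/16) ∧ s = ρ - 1/(4*M) ∨ -(M/16) ≤ k - (1-2*ρ)*m ∧ s + 1/M^2 ≤ s') :
    k < m ∧ k ≤ s' * (m-k) ∧ m * s ≤ m - k + 1 ∧ 0 ≤ s' ∧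
    m * k ≤ m^2 - 3*m*k + k^2 + 2*m - k - m*(m-k)*s ∧
    k*(m-k+1) - k*m*s ≤ s' * (m^2 - 3*m*k + k^2 + 2*m - k - m*(m-k)*s) ∧
    2*m*s < m-k+1 := by
  obtain ⟨hD, hM, hρ, hρ1, hρ2⟩ := P
  have hM200 : 200 ≤ M := by linarith
  have hM0 : 0 < M := by linarith
  have hinv : 1/(4*M) ≤ 0.00125 := by
    rw [div_le_iff₀ (by positivity)]; linarith
  have hinv0 : 0 < 1/(4*M) := by positivity
  have hinv8 : 1/(8*M) = 1/(4*M)/2 := by field_simp; norm_num
  have hM2 : 200 * M ≤ M^2 := by nlinarith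
  have hM3 : 200 * M^2 ≤ M^3 := by
    have := mul_le_mul_of_nonneg_right hM200 (sq_nonneg M)
    calc 200 * M^2 ≤ M * M^2 := this
      _ = M^3 := by ring
  have hDM : D ≤ M/100 := by linarith
  set N := M^3 with hN
  have hmpos : 0 < m := by
    by_contra h
    push Not at h
    have : (1-2*ρ)*m ≤ 0 := mul_nonpos_of_nonneg_of_nonpos (by linarith) h
    linarith
  have h1 : (1-2*ρ)*m ≤ 0.18 * m := mul_le_mul_of_nonneg_right (by linarith) hmpos.le
  have h1' : 0.17 * m ≤ (1-2*ρ)*m := mul_le_mul_of_nonneg_right (by linarith) hmpos.le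
  have hm : 0.8 * N ≤ m := by linarith
  have hDm : D ≤ 0.000001 * m := by linarith
  have hk2 : k ≤ 0.181 * m := by linarith
  have hs_lo : 0.4 ≤ s := by linarith
  have hs_hi : s ≤ 0.415 := by linarith
  have hs'_lo : 0.4 ≤ s' := by linarith
  have hkm : k < m := by linarith
  -- δ
  obtain ⟨δ, hδ⟩ : ∃ δ, δ = ρ - s := ⟨_, rfl⟩
  have hsδ : s = ρ - δ := by linarith
  have hδ1 : 1/(8*M) ≤ δ := by linarith
  have hδ2 : δ ≤ 1/(4*M) := by linarith
  have hδM : 1 ≤ 8*(M*δ) := by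
    have := mul_le_mul_of_nonneg_left hδ1 (by positivity : 0 ≤ 8*M)
    have e : 8*M*(1/(8*M)) = 1 := by field_simp
    rw [e] at this; linarith
  have hδM2 : 4*(M*δ) ≤ 1 := by
    have := mul_le_mul_of_nonneg_left hδ2 (by positivity : 0 ≤ 4*M)
    have e : 4*M*(1/(4*M)) = 1 := by field_simp
    rw [e] at this; linarith
  have hδ0 : 0 < δ := by linarith
  obtain ⟨d, hdd⟩ : ∃ d, d = k - (1-2*ρ)*m := ⟨_, rfl⟩
  have hkd : k = (1-2*ρ)*m + d := by linarith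
  rw [← hdd] at hd hph
  -- m δ is large: 
  have hNM : N = M^2 * M := by rw [hN]; ring
  have hmδ : 0.1 * M^2 ≤ m * δ := by
    have : 0.8 * N * δ ≤ m * δ := mul_le_mul_of_nonneg_right hm hδ0.le
    have h5 : 0.1 * M^2 * 1 ≤ 0.1*M^2*(8*(M*δ)) := mul_le_mul_of_nonneg_left hδM (by positivity)
    rw [hNM] at this
    linarith
  have hG : m * k ≤ m^2 - 3*m*k + k^2 + 2*m - k - m*(m-k)*s := by
    have e : m^2 - 3*m*k + k^2 + 2*m - k - m*(m-k)*s - m*k
        = -(m*d)*(4 - 2*(1-2*ρ) - ρ) + d^2 + (m-k)*(m*δ) + (2*m-k) := by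
      rw [hsδ, hkd]
      linear_combination (2*m^2) * hρ
    have g1 : (m*d)*(4 - 2*(1-2*ρ) - ρ) ≤ (m*D)*4 := by
      have g2 : m*d ≤ m*D := mul_le_mul_of_nonneg_left hd hmpos.le
      have g3 : (m*d)*(4 - 2*(1-2*ρ) - ρ) ≤ (m*D)*(4 - 2*(1-2*ρ) - ρ) :=
        mul_le_mul_of_nonneg_right g2 (by linarith)
      have g4 : (m*D)*(4 - 2*(1-2*ρ) - ρ) ≤ (m*D)*4 := 
        mul_le_mul_of_nonneg_left (by linarith) (by positivity)
      linarith
    have g5 : (0.8*m) * (0.1*M^2) ≤ (m-k)*(m*δ) := 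
      mul_le_mul (by linarith) hmδ (by positivity) (by linarith)
    have g6 : m * (4*D) ≤ m * (0.08*M^2) := mul_le_mul_of_nonneg_left (by linarith) hmpos.le
    have g7 := sq_nonneg d
    linarith
  have hGpos : 0 ≤ m^2 - 3*m*k + k^2 + 2*m - k - m*(m-k)*s := le_trans (by positivity) hG
  have hks : k ≤ s * (m-k) := by
    have : 0.4*(m-k) ≤ s*(m-k) := mul_le_mul_of_nonneg_right hs_lo (by linarith)
    linarith
  refine ⟨hkm, ?_, ?_, by linarith, hG, ?_, ?_⟩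
  · have : s*(m-k) ≤ s'*(m-k) := mul_le_mul_of_nonneg_right hss' (by linarith)
    linarith
  · have : m*s ≤ m*0.415 := mul_le_mul_of_nonneg_left hs_hi hmpos.le
    linarith
  · -- main condition
    have eQ : k*(m-k+1) - k*m*s - s * (m^2 - 3*m*k + k^2 + 2*m - k - m*(m-k)*s)
        = (m-k)*(m*δ^2 + d*(1+s)) + (k - (2*m-k)*s) := by
      have : d = k - (1-2*ρ)*m := hdd
      rw [this, hδ]
      linear_combination (-(m-k)*m) * hρ
    have q1 : k - (2*m-k)*s ≤ 0 := by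
      have : 0.4*(2*m-k) ≤ (2*m-k)*s := by
        rw [mul_comm (2*m-k) s]
        exact mul_le_mul_of_nonneg_right hs_lo (by linarith)
      linarith
    rcases hph with ⟨hp1, hp2⟩ | ⟨hp1, hp2⟩
    · have hs'G : s * (m^2 - 3*m*k + k^2 + 2*m - k - m*(m-k)*s) ≤ s' * (m^2 - 3*m*k + k^2 + 2*m - k - m*(m-k)*s) :=
        mul_le_mul_of_nonneg_right hss' hGpos
      have q2 : m*δ^2 + d*(1+s) ≤ 0 := by
        have q3 : m*δ^2 ≤ M/16 := by
          have : m * δ^2 ≤ N * δ^2 := mul_le_mul_of_nonneg_right hmM (sq_nonneg _)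
          have h6 : N*δ^2 = M*(M*δ)^2 := by rw [hN]; ring
          have h7 : (M*δ)^2 ≤ 1/16 := by
            have h8 : 0 ≤ M*δ := by positivity
            have h8' : (M*δ)^2 ≤ (1/4)^2 := pow_le_pow_left₀ h8 (by linarith) 2
            norm_num at h8'
            linarith
          have h9 : M*(M*δ)^2 ≤ M*(1/16) := mul_le_mul_of_nonneg_left h7 hM0.le
          linarith
        have q4 : d*(1+s) ≤ -(M/16)*(1+s) := mul_le_mul_of_nonneg_right hp1 (by linarith)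
        have q5 : 0 ≤ M/16*s := by positivity
        linarith
      have q6 : (m-k)*(m*δ^2 + d*(1+s)) ≤ 0 := mul_nonpos_of_nonneg_of_nonpos (by linarith) q2
      linarith
    · have hs'G : (s + 1/M^2) * (m^2 - 3*m*k + k^2 + 2*m - k - m*(m-k)*s) ≤ s' * (m^2 - 3*m*k + k^2 + 2*m - k - m*(m-k)*s) :=
        mul_le_mul_of_nonneg_right hp2 hGpos
      have q7 : 1/M^2 * (m*k) ≤ 1/M^2 * (m^2 - 3*m*k + k^2 + 2*m - k - m*(m-k)*s) :=
        mul_le_mul_of_nonneg_left hG (by positivity)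
      have q8 : (m-k)*(m*δ^2 + d*(1+s)) ≤ m*(m*δ^2 + 2*D) := by
        have r1 : m*δ^2 + d*(1+s) ≤ m*δ^2 + 2*D := by
          have r2 : d*(1+s) ≤ D*(1+s) := mul_le_mul_of_nonneg_right hd (by linarith)
          have r3 : D*(1+s) ≤ D*2 := mul_le_mul_of_nonneg_left (by linarith) (by linarith)
          linarith
        have r4 : 0 ≤ m*δ^2 + 2*D := by positivity
        have r5 : (m-k)*(m*δ^2 + d*(1+s)) ≤ (m-k)*(m*δ^2 + 2*D) := mul_le_mul_of_nonneg_left r1 (by linarith)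
        have r6 : (m-k)*(m*δ^2 + 2*D) ≤ m*(m*δ^2 + 2*D) := mul_le_mul_of_nonneg_right (by linarith) r4
        linarith
      have q9 : m*δ^2 + 2*D ≤ 1/M^2*k := by
        rw [one_div_mul_eq_div, le_div_iff₀ (by positivity)]
        have h7 : (M*δ)^2 ≤ 1/16 := by
          have h8 : 0 ≤ M*δ := by positivity
          have h8' : (M*δ)^2 ≤ (1/4)^2 := pow_le_pow_left₀ h8 (by linarith) 2
          norm_num at h8'
          linarith
        have h8 : m*(M*δ)^2 ≤ m*(1/16) := mul_le_mul_of_nonneg_left h7 hmpos.le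
        have h9 : (m*δ^2 + 2*D)*M^2 = m*(M*δ)^2 + 2*D*M^2 := by ring
        have h10 : D*M^2 ≤ M/100*M^2 := mul_le_mul_of_nonneg_right hDM (by positivity)
        have h11 : M/100*M^2 = N/100 := by rw [hN]; ring
        rw [h9]
        linarith
      have q10 : m*(m*δ^2 + 2*D) ≤ m*(1/M^2*k) := mul_le_mul_of_nonneg_left q9 hmpos.le
      linarith
  · have e : m - k + 1 - 2*m*s = -d + 1 + 2*(m*δ) := by rw [hsδ, hkd]; ring
    linarith

end TH178.Feynman
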