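import Mathlib
import Pool.Agent.TH178.FeynC

set_option autoImplicit false

namespace TH178.Feynman

noncomputable def dd (M : ℕ) (ρ : ℝ) (q : ℕ) : ℝ := ((q:ℝ)+1) - (1-2*ρ)*((M:ℝ)^3 - q)
noncomputable def ss (M : ℕ) (ρ : ℝ) (q : ℕ) : ℝ := ρ - 1/(4*M) + (1/(M:ℝ)^2) * max 0 (dd M ρ q + M/16)

lemma dd_succ (M : ℕ) (ρ : ℝ) (q : ℕ) : dd M ρ (q+1) = dd M ρ q + (2 - 2*ρ) := by
  unfold dd; push_cast; ring

lemma full_step {M : ℕ} {D ρ : ℝ} (P : Par (M:ℝ) D ρ) (q : ℕ) (hq : dd M ρ q ≤ D)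
    (ha : 0 < al (M^3) q) (hb0 : 0 ≤ be (M^3) q) (hb : be (M^3) q ≤ ss M ρ q * al (M^3) q) :
    al (M^3) q ≤ al (M^3) (q+1) ∧ be (M^3) q < be (M^3) (q+1) ∧
      be (M^3) (q+1) ≤ ss M ρ (q+1) * al (M^3) (q+1) := by
  have hM200 : (200:ℝ) ≤ M := by have := P.hM; have := P.hD; linarith
  have hM0 : (0:ℝ) < M := by linarith
  have hDM : D ≤ (M:ℝ)/100 := by have := P.hM; linarith
  have hinv : (0:ℝ) < 1/(M:ℝ)^2 := by positivity
  obtain ⟨m, hm⟩ : ∃ m : ℝ, m = (M:ℝ)^3 - q := ⟨_, rfl⟩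
  obtain ⟨k, hk⟩ : ∃ k : ℝ, k = (q:ℝ) + 1 := ⟨_, rfl⟩
  have hddq : dd M ρ q = k - (1-2*ρ)*m := by unfold dd; rw [hm, hk]
  have hq0 : (0:ℝ) ≤ q := Nat.cast_nonneg q
  have hkpos : 0 < k := by rw [hk]; positivity
  have h1 := rec1 (M^3) q
  have h2 := rec2 (M^3) q
  push_cast at h1 h2
  have h1' : m * (be (M^3) (q+1) + be (M^3) q) = (m-k+1) * al (M^3) q := by
    rw [hm, hk]; linear_combination h1
  have h2' : k * al (M^3) (q+1) = (2*m-k) * be (M^3) (q+1) - m * (al (M^3) q - be (M^3) q) := by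
    rw [hm, hk]; linear_combination h2
  have hρ1 := P.hρ1
  have hρ2 := P.hρ2
  have hs1 : ρ - 1/(4*M) ≤ ss M ρ q := by
    unfold ss
    have : 0 ≤ (1/(M:ℝ)^2) * max 0 (dd M ρ q + M/16) := by positivity
    linarith
  have hs2 : ss M ρ q ≤ ρ - 1/(8*M) := by
    unfold ss
    have h3 : max 0 (dd M ρ q + M/16) ≤ (M:ℝ)/8 := by
      apply max_le
      · positivity
      · linarith
    have h4 : (1/(M:ℝ)^2) * max 0 (dd M ρ q + M/16) ≤ (1/(M:ℝ)^2) * ((M:ℝ)/8) := mul_le_mul_of_nonneg_left h3 hinv.le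
    have h5 : (1/(M:ℝ)^2) * ((M:ℝ)/8) = 1/(8*M) := by field_simp
    have h6 : 1/(4*(M:ℝ)) = 2*(1/(8*M)) := by field_simp; norm_num
    linarith
  have hss' : ss M ρ q ≤ ss M ρ (q+1) := by
    unfold ss
    have : max 0 (dd M ρ q + M/16) ≤ max 0 (dd M ρ (q+1) + M/16) := by
      rw [dd_succ]
      exact max_le_max le_rfl (by linarith)
    have := mul_le_mul_of_nonneg_left this hinv.le
    linarith
  have hph : k - (1-2*ρ)*m ≤ -((M:ℝ)/16) ∧ ss M ρ q = ρ - 1/(4*M) ∨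
      -((M:ℝ)/16) ≤ k - (1-2*ρ)*m ∧ ss M ρ q + 1/(M:ℝ)^2 ≤ ss M ρ (q+1) := by
    rw [← hddq]
    rcases le_total (dd M ρ q) (-((M:ℝ)/16)) with h | h
    · left
      refine ⟨h, ?_⟩
      unfold ss
      rw [max_eq_left (by linarith)]; ring
    · right
      refine ⟨h, ?_⟩
      unfold ss
      rw [max_eq_right (by linarith), max_eq_right (by rw [dd_succ]; linarith), dd_succ]
      have h7 : (1/(M:ℝ)^2) * 1 ≤ (1/(M:ℝ)^2) * (2-2*ρ) := mul_le_mul_of_nonneg_left (by linarith) hinv.le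
      linarith
  obtain ⟨c1, c2, c3, c4, c5, c6, c7⟩ := cond P hkpos (by rw [hm, hk]; ring) (by rw [hm]; linarith)
    (by rw [← hddq]; exact hq) hs1 hs2 hss' hph
  obtain ⟨r1, r2, r3⟩ := step hkpos c1 ha hb0 hb c2 c3 c4 c5 c6 h1' h2'
  refine ⟨r1, ?_, r3⟩
  have hmpos : 0 < m := by linarith
  have h8 : m * be (M^3) q < m * be (M^3) (q+1) := by
    have h9 : m * be (M^3) q ≤ m * (ss M ρ q * al (M^3) q) := mul_le_mul_of_nonneg_left hb hmpos.le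
    have h10 : (2*m*ss M ρ q) * al (M^3) q < (m-k+1) * al (M^3) q := mul_lt_mul_of_pos_right c7 ha
    linarith
  exact lt_of_mul_lt_mul_left h8 hmpos.le

lemma claim {M : ℕ} {D ρ : ℝ} (P : Par (M:ℝ) D ρ) (q : ℕ) (hq : dd M ρ q ≤ D) :
    0 < al (M^3) q ∧ 0 ≤ be (M^3) q ∧ be (M^3) q ≤ ss M ρ q * al (M^3) q := by
  induction q with
  | zero =>
    rw [al_zero, be_zero]
    refine ⟨one_pos, le_rfl, ?_⟩
    have hM200 : (200:ℝ) ≤ M := by have := P.hM; have := P.hD; linarith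
    have hinv : 1/(4*(M:ℝ)) ≤ 0.00125 := by
      rw [div_le_iff₀ (by positivity)]; linarith
    unfold ss
    have : 0 ≤ (1/(M:ℝ)^2) * max 0 (dd M ρ 0 + M/16) := by positivity
    have := P.hρ1
    linarith
  | succ q ih =>
    have h : dd M ρ q ≤ D := by rw [dd_succ] at hq; have := P.hρ2; linarith
    obtain ⟨h1, h2, h3⟩ := ih h
    obtain ⟨h4, h5, h6⟩ := full_step P q h h1 h2 h3
    exact ⟨lt_of_lt_of_le h1 h4, le_trans h2 h5.le, h6⟩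

lemma increase {M : ℕ} {D ρ : ℝ} (P : Par (M:ℝ) D ρ) (q : ℕ) (hq : dd M ρ q ≤ D) :
    (al (M^3) q)^2 + (be (M^3) q)^2 < (al (M^3) (q+1))^2 + (be (M^3) (q+1))^2 := by
  obtain ⟨h1, h2, h3⟩ := claim P q hq
  obtain ⟨h4, h5, h6⟩ := full_step P q hq h1 h2 h3
  have := pow_le_pow_left₀ h1.le h4 2
  have := pow_lt_pow_left₀ h5 h2 (two_ne_zero)
  linarith

lemma AB_sq (n q : ℕ) : (A n ((n:ℤ) + 1 - 2 * q))^2 + (B n ((n:ℤ) + 1 - 2 * q))^2 = (al n q)^2 + (be n q)^2 := by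
  unfold al be
  rw [mul_pow, mul_pow, ← pow_mul, ← pow_mul, mul_comm q 2, mul_comm (q+1) 2, pow_mul, pow_mul]
  norm_num

theorem main (C : ℝ) : ∃ n : ℕ, ∃ x : ℤ,
    (∀ y : ℤ, (A n y)^2 + (B n y)^2 ≤ (A n x)^2 + (B n x)^2) ∧ C < |(x:ℝ) - ((n:ℝ) + 1) / Real.sqrt 2| := by
  have hsq2 : Real.sqrt 2 ^ 2 = 2 := Real.sq_sqrt (by norm_num)
  have hs0 : 0 < Real.sqrt 2 := by positivity
  obtain ⟨ρ, hρ⟩ : ∃ ρ, ρ = Real.sqrt 2 - 1 := ⟨_, rfl⟩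
  have hr2 : Real.sqrt 2 = ρ + 1 := by linarith
  have hρsq : ρ^2 = 1 - 2*ρ := by rw [hr2] at hsq2; linarith
  have hρ0 : 0 < ρ := by nlinarith
  have hρ1 : 0.41 < ρ := by nlinarith
  have hρ2 : ρ < 0.415 := by nlinarith
  obtain ⟨D, hD⟩ : ∃ D, D = |C| + 2 := ⟨_, rfl⟩
  obtain ⟨M, hM⟩ := exists_nat_ge (100*(D+1))
  have P : Par (M:ℝ) D ρ := ⟨by rw [hD]; have := abs_nonneg C; linarith, hM, hρsq, hρ1, hρ2⟩
  refine ⟨M^3, ?_⟩
  set n := M^3 with hn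
  have hnR : (n:ℝ) = (M:ℝ)^3 := by rw [hn]; push_cast; ring
  -- a maximiser exists
  obtain ⟨x, hx⟩ : ∃ x : ℤ, ∀ y : ℤ, (A n y)^2 + (B n y)^2 ≤ (A n x)^2 + (B n x)^2 := by
    obtain ⟨x, _, hx⟩ := Finset.exists_max_image (Finset.Icc (-(n:ℤ)) (n+1))
      (fun y => (A n y)^2 + (B n y)^2) ⟨0, by simp; omega⟩
    refine ⟨x, fun y => ?_⟩
    by_cases hy : y ∈ Finset.Icc (-(n:ℤ)) (n+1)
    · exact hx y hy
    · have : A n y = 0 ∧ B n y = 0 := by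
        rw [Finset.mem_Icc, not_and_or, not_le, not_le] at hy
        rcases hy with hy | hy
        · exact AB_low n y hy
        · exact (A_top n).2.2 y hy
      rw [this.1, this.2]
      have h1 := sq_nonneg (A n x)
      have h2 := sq_nonneg (B n x)
      linarith
  refine ⟨x, hx, ?_⟩
  by_contra hcon
  push Not at hcon
  -- x is in the support
  have hpos : 0 < (A n x)^2 + (B n x)^2 := by
    have := hx ((n:ℤ)+1)
    rw [(A_top n).1, (A_top n).2.1] at this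
    linarith
  have hpar : (2:ℤ) ∣ (x - n - 1) := by
    by_contra h
    have := AB_par n x h
    rw [this.1, this.2] at hpos
    norm_num at hpos
  have hle : x ≤ n + 1 := by
    by_contra h
    push Not at h
    have := (A_top n).2.2 x h
    rw [this.1, this.2] at hpos
    norm_num at hpos
  obtain ⟨q, hq⟩ : ∃ q : ℕ, x = (n:ℤ) + 1 - 2 * q := by
    obtain ⟨c, hc⟩ := hpar
    exact ⟨(-c).toNat, by omega⟩
  -- x in the window
  have hxR : (x:ℝ) = n + 1 - 2*q := by rw [hq]; push_cast; ring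
  have hinv : ((n:ℝ)+1)/Real.sqrt 2 = ((n:ℝ)+1)*(ρ+1)/2 := by
    rw [div_eq_div_iff hs0.ne' (by norm_num), hr2]
    linear_combination (-((n:ℝ)+1)) * hρsq
  have hC : (x:ℝ) - ((n:ℝ) + 1) / Real.sqrt 2 ≥ -|C| := by
    have h1 := neg_abs_le ((x:ℝ) - ((n:ℝ) + 1) / Real.sqrt 2)
    have h2 := le_abs_self C
    linarith
  have hdq : dd M ρ q ≤ D := by
    unfold dd
    rw [← hnR]
    rw [hinv, hxR] at hC
    have h3 : (q:ℝ) ≤ ((n:ℝ)+1)*(1-ρ)/4 + |C|/2 := by linarith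
    have h4 : (2-2*ρ)*(q:ℝ) ≤ (2-2*ρ)*(((n:ℝ)+1)*(1-ρ)/4 + |C|/2) := mul_le_mul_of_nonneg_left h3 (by linarith)
    have h5 : (2-2*ρ)*(((n:ℝ)+1)*(1-ρ)/4 + |C|/2) = (1-2*ρ)*((n:ℝ)+1) + (1-ρ)*|C| := by
      linear_combination (((n:ℝ)+1)/2) * hρsq
    have h6 : 0 ≤ ρ * |C| := by positivity
    linarith
  have h7 := increase P q hdq
  rw [← AB_sq, ← AB_sq] at h7
  have h8 := hx ((n:ℤ) + 1 - 2 * ((q+1 : ℕ):ℤ))
  rw [hq] at h8
  exact absurd h8 (not_le.mpr h7)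

end TH178.Feynman
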